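import Pool.Agent.W23.SG.Defs
import Pool.Agent.H442R2.KF.Poi

/-! SG-PA: Poisson summation with a single term. -/

namespace Pool.Agent.W488.SG

open Finset Filter
open Pool.Agent.H442R2
open Pool.Agent.H442R2.KF
open Pool.Agent.W23.SG

theorem PA : St_PA := by
  intro δ hδ
  obtain ⟨N₁, hN₁⟩ := poisson_trunc
  -- log N ≤ N^δ eventually
  have hlog : ∀ᶠ N : ℕ in atTop, Real.log (N : ℝ) ≤ (N : ℝ) ^ δ := by
    have h := (isLittleO_log_rpow_atTop hδ).bound (zero_lt_one)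
    have h2 := tendsto_natCast_atTop_atTop (R := ℝ) |>.eventually h
    filter_upwards [h2, eventually_ge_atTop 1] with N hN hN1
    have h1 : (1 : ℝ) ≤ N := by exact_mod_cast hN1
    rw [Real.norm_of_nonneg (Real.log_nonneg h1), Real.norm_of_nonneg (by positivity), one_mul] at hN
    exact hN
  obtain ⟨N₂, hN₂⟩ := eventually_atTop.1 hlog
  refine ⟨max (max N₁ N₂) 1, ?_⟩
  intro N hN m c hm hmN
  have hNN1 : N₁ ≤ N := le_trans (le_trans (le_max_left _ _) (le_max_left _ _)) hN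
  have hNN2 : N₂ ≤ N := le_trans (le_trans (le_max_right _ _) (le_max_left _ _)) hN
  have hN1 : 1 ≤ N := le_trans (le_max_right _ _) hN
  have hN1' : (1 : ℝ) ≤ N := by exact_mod_cast hN1
  have hN0 : (0 : ℝ) < N := by linarith
  have hle : (N : ℝ) ^ (1 - δ) * (N : ℝ) ^ δ = N := by
    rw [← Real.rpow_add hN0]
    simp
  have hm0 : (0 : ℝ) ≤ m := by positivity
  have hm3 : (m : ℝ) ≤ (N : ℝ) ^ 3 := by
    calc (m : ℝ) ≤ (N : ℝ) ^ (1 - δ) := hmN
      _ ≤ (N : ℝ) ^ (3 : ℝ) := Real.rpow_le_rpow_of_exponent_le hN1' (by linarith)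
      _ = (N : ℝ) ^ 3 := by norm_cast
  have hJ : (m : ℝ) * Real.log N ≤ (((0 : ℕ) : ℝ) + 1) * N := by
    have hl := hN₂ N hNN2
    have hlog0 : 0 ≤ Real.log N := Real.log_nonneg hN1'
    calc (m : ℝ) * Real.log N ≤ (N : ℝ) ^ (1 - δ) * (N : ℝ) ^ δ := by
          gcongr
      _ = N := hle
      _ = (((0 : ℕ) : ℝ) + 1) * N := by simp
  have h := hN₁ N hNN1 m hm hm3 c 0 hJ
  have hI : Icc (-((0 : ℕ) : ℤ)) ((0 : ℕ) : ℤ) = {0} := by simp
  rw [hI, Finset.sum_singleton] at h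
  have he : (Real.exp (-Real.pi * ((((0 : ℤ) : ℝ)) * N / m) ^ 2) : ℂ) = 1 := by
    simp
  have he2 : e (((0 : ℤ) : ℝ) * c / m) = 1 := by
    simp [e]
  rw [he2] at h
  simp only [Int.cast_zero, zero_mul, zero_div, mul_one] at h
  have h3 : (((∑' n : ℤ, (if (m : ℤ) ∣ n - c then Wt N n else 0) : ℝ) : ℂ) -
      ((N : ℝ) / m : ℝ) * ((Real.exp (-Real.pi * (0 : ℝ) ^ 2) : ℝ) : ℂ)) =
      (((∑' n : ℤ, (if (m : ℤ) ∣ n - c then Wt N n else 0) - N / m : ℝ)) : ℂ) := by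
    simp
  rw [h3, Complex.norm_real, Real.norm_eq_abs] at h
  exact h

end Pool.Agent.W488.SG
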